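import Mathlib

set_option autoImplicit false

namespace Pool.Agent.Results.MP_994e17_co.OrderCongruences

open Configuration Finset
open scoped Classical

variable {P L : Type*} [Membership P L]

/-- The points `a`, `b`, `c` lie on a common line. -/
def Col (L : Type*) {P : Type*} [Membership P L] (a b c : P) : Prop :=
  ∃ l : L, a ∈ l ∧ b ∈ l ∧ c ∈ l

/-- A quadrangle: four points, no three of them collinear. -/
def Quadrangle (L : Type*) {P : Type*} [Membership P L] (a b c d : P) : Prop :=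
  ¬ Col L a b c ∧ ¬ Col L a b d ∧ ¬ Col L a c d ∧ ¬ Col L b c d

/-- The set `S` of points and the set `T` of lines form a projective plane (a subplane) under the
inherited incidence. -/
structure IsSubplane (S : Finset P) (T : Finset L) : Prop where
  exists_line : ∀ a ∈ S, ∀ b ∈ S, a ≠ b → ∃ l ∈ T, a ∈ l ∧ b ∈ l
  exists_point : ∀ l ∈ T, ∀ m ∈ T, l ≠ m → ∃ a ∈ S, a ∈ l ∧ a ∈ m
  exists_quadrangle : ∃ a ∈ S, ∃ b ∈ S, ∃ c ∈ S, ∃ d ∈ S, Quadrangle L a b c d

/-- The subplane `(S, T)` has order `m`: every line has `m + 1` points and every point is on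
`m + 1` lines. -/
def HasOrder (S : Finset P) (T : Finset L) (m : ℕ) : Prop :=
  (∀ l ∈ T, (S.filter (fun a => a ∈ l)).card = m + 1) ∧
  (∀ a ∈ S, (T.filter (fun l => a ∈ l)).card = m + 1)

/-- Every quadrangle generates a subplane of order `p`: the smallest subplane containing it exists
and has order `p`. -/
def HasCharacteristic (P L : Type*) [Membership P L] (p : ℕ) : Prop :=
  ∀ a b c d : P, Quadrangle L a b c d → ∃ (S : Finset P) (T : Finset L),
    IsSubplane S T ∧ HasOrder S T p ∧ a ∈ S ∧ b ∈ S ∧ c ∈ S ∧ d ∈ S ∧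
    ∀ (S' : Finset P) (T' : Finset L), IsSubplane S' T' → a ∈ S' → b ∈ S' → c ∈ S' → d ∈ S' →
      S ⊆ S' ∧ T ⊆ T'

/-- A partition lemma. -/
lemma part {α : Type*} (X : Finset α) (C : α → Finset α) (k : ℕ)
    (h1 : ∀ x ∈ X, x ∈ C x) (h2 : ∀ x ∈ X, C x ⊆ X) (h3 : ∀ x ∈ X, (C x).card = k)
    (h4 : ∀ x ∈ X, ∀ y ∈ C x, C y ⊆ C x) : k ∣ X.card := by
  rw [Finset.card_eq_sum_card_image C X]
  apply Finset.dvd_sum
  intro b hb
  obtain ⟨x, hx, rfl⟩ := Finset.mem_image.1 hb
  have : X.filter (fun a => C a = C x) = C x := by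
    ext y
    rw [Finset.mem_filter]
    constructor
    · rintro ⟨hy, h⟩
      rw [← h]; exact h1 y hy
    · intro hy
      have hyX := h2 x hx hy
      refine ⟨hyX, Finset.eq_of_subset_of_card_le (h4 x hx y hy) ?_⟩
      rw [h3 x hx, h3 y hyX]
  rw [this, h3 x hx]

section plane

variable [ProjectivePlane P L]

lemma line_unique {a b : P} {l m : L} (hab : a ≠ b) (h1 : a ∈ l) (h2 : b ∈ l) (h3 : a ∈ m)
    (h4 : b ∈ m) : l = m :=
  (Nondegenerate.eq_or_eq h1 h2 h3 h4).resolve_left hab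

lemma point_unique {a b : P} {l m : L} (hlm : l ≠ m) (h1 : a ∈ l) (h2 : b ∈ l) (h3 : a ∈ m)
    (h4 : b ∈ m) : a = b :=
  (Nondegenerate.eq_or_eq h1 h2 h3 h4).resolve_right hlm

lemma exists_line_pair (L : Type*) {P : Type*} [Membership P L] [ProjectivePlane P L] (a b : P) :
    ∃ l : L, a ∈ l ∧ b ∈ l := by
  by_cases hab : a = b
  · subst hab
    obtain ⟨p₁, p₂, p₃, l₁, l₂, l₃, h12, -, -, h22, -⟩ :=
      ProjectivePlane.exists_config (P := P) (L := L)
    have hne : p₁ ≠ p₂ := by rintro rfl; exact h12 h22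
    by_cases h : a = p₁
    · have h' : a ≠ p₂ := by rw [h]; exact hne
      exact ⟨HasLines.mkLine h', (HasLines.mkLine_ax h').1, (HasLines.mkLine_ax h').1⟩
    · exact ⟨HasLines.mkLine h, (HasLines.mkLine_ax h).1, (HasLines.mkLine_ax h).1⟩
  · exact ⟨HasLines.mkLine hab, (HasLines.mkLine_ax hab).1, (HasLines.mkLine_ax hab).2⟩

lemma ne_of_not_col {a b c : P} (h : ¬ Col L a b c) : a ≠ b ∧ a ≠ c ∧ b ≠ c := by
  refine ⟨?_, ?_, ?_⟩
  · rintro rfl
    obtain ⟨l, h1, h2⟩ := exists_line_pair L a c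
    exact h ⟨l, h1, h1, h2⟩
  · rintro rfl
    obtain ⟨l, h1, h2⟩ := exists_line_pair L a b
    exact h ⟨l, h1, h2, h1⟩
  · rintro rfl
    obtain ⟨l, h1, h2⟩ := exists_line_pair L a b
    exact h ⟨l, h1, h2, h2⟩

lemma col_iff {a b c : P} {l : L} (hab : a ≠ b) (ha : a ∈ l) (hb : b ∈ l) :
    Col L a b c ↔ c ∈ l := by
  constructor
  · rintro ⟨m, h1, h2, h3⟩
    rw [line_unique hab ha hb h1 h2]; exact h3
  · intro h; exact ⟨l, ha, hb, h⟩

variable {S : Finset P} {T : Finset L} {m : ℕ}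

lemma mem_T (h : IsSubplane S T) {a b : P} {l : L} (ha : a ∈ S) (hb : b ∈ S) (hab : a ≠ b)
    (hal : a ∈ l) (hbl : b ∈ l) : l ∈ T := by
  obtain ⟨l', h1, h2, h3⟩ := h.exists_line a ha b hb hab
  rw [line_unique hab hal hbl h2 h3]; exact h1

lemma mem_S (h : IsSubplane S T) {a : P} {l k : L} (hl : l ∈ T) (hk : k ∈ T) (hlk : l ≠ k)
    (hal : a ∈ l) (hak : a ∈ k) : a ∈ S := by
  obtain ⟨a', h1, h2, h3⟩ := h.exists_point l hl k hk hlk
  rw [point_unique hlk hal h2 hak h3]; exact h1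

lemma card_S (h : IsSubplane S T) (ho : HasOrder S T m) : S.card = m ^ 2 + m + 1 := by
  obtain ⟨a, ha, -⟩ := h.exists_quadrangle
  have h1 : S.erase a = (T.filter (fun l => a ∈ l)).biUnion
      (fun l => (S.filter (fun b => b ∈ l)).erase a) := by
    ext b
    simp only [Finset.mem_erase, Finset.mem_biUnion, Finset.mem_filter]
    constructor
    · rintro ⟨hne, hb⟩
      obtain ⟨l, hl, h2, h3⟩ := h.exists_line a ha b hb (Ne.symm hne)
      exact ⟨l, ⟨hl, h2⟩, hne, hb, h3⟩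
    · rintro ⟨l, -, hne, hb, -⟩
      exact ⟨hne, hb⟩
  have h2 : (S.erase a).card = (m + 1) * m := by
    rw [h1, Finset.card_biUnion]
    · rw [Finset.sum_congr rfl (g := fun _ => m)]
      · rw [Finset.sum_const, ho.2 a ha, smul_eq_mul]
      · intro l hl
        rw [Finset.mem_filter] at hl
        rw [Finset.card_erase_of_mem (Finset.mem_filter.2 ⟨ha, hl.2⟩), ho.1 l hl.1]
        rfl
    · intro l hl k hk hlk
      rw [Finset.mem_coe, Finset.mem_filter] at hl hk
      rw [Function.onFun, Finset.disjoint_left]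
      intro b hb hb'
      rw [Finset.mem_erase, Finset.mem_filter] at hb hb'
      exact hb.1 (point_unique hlk hb.2.2 hl.2 hb'.2.2 hk.2)
  have h3 := Finset.card_erase_add_one ha
  rw [h2] at h3
  rw [← h3]; ring

lemma card_off (h : IsSubplane S T) (ho : HasOrder S T m) {l : L} (hl : l ∈ T) :
    (S.filter (fun c => c ∉ l)).card = m ^ 2 := by
  have h1 := Finset.card_filter_add_card_filter_not (s := S) (fun c => c ∈ l)
  rw [ho.1 l hl, card_S h ho] at h1
  omega

lemma card_off3 (h : IsSubplane S T) (ho : HasOrder S T m) {a b c : P} (ha : a ∈ S) (hb : b ∈ S)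
    (hc : c ∈ S) (habc : ¬ Col L a b c) :
    (S.filter (fun d => Quadrangle L a b c d)).card = (m - 1) ^ 2 := by
  obtain ⟨hab, hac, hbc⟩ := ne_of_not_col habc
  obtain ⟨l1, hl1, ha1, hb1⟩ := h.exists_line a ha b hb hab
  obtain ⟨l2, hl2, ha2, hc2⟩ := h.exists_line a ha c hc hac
  obtain ⟨l3, hl3, hb3, hc3⟩ := h.exists_line b hb c hc hbc
  have h12 : l1 ≠ l2 := by rintro rfl; exact habc ⟨l1, ha1, hb1, hc2⟩
  have h13 : l1 ≠ l3 := by rintro rfl; exact habc ⟨l1, ha1, hb1, hc3⟩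
  have h23 : l2 ≠ l3 := by rintro rfl; exact habc ⟨l2, ha2, hb3, hc2⟩
  set A := S.filter (fun d => d ∈ l1) with hA
  set B := S.filter (fun d => d ∈ l2) with hB
  set C := S.filter (fun d => d ∈ l3) with hC
  have e1 : S.filter (fun d => Quadrangle L a b c d) = S \ ((A ∪ B) ∪ C) := by
    ext d
    simp only [Finset.mem_filter, Finset.mem_sdiff, Finset.mem_union, hA, hB, hC, Quadrangle]
    rw [col_iff hab ha1 hb1, col_iff hac ha2 hc2, col_iff hbc hb3 hc3, col_iff hab ha1 hb1]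
    have hcl1 : c ∉ l1 := fun hcon => habc ⟨l1, ha1, hb1, hcon⟩
    tauto
  have cA : A.card = m + 1 := ho.1 l1 hl1
  have cB : B.card = m + 1 := ho.1 l2 hl2
  have cC : C.card = m + 1 := ho.1 l3 hl3
  have iAB : A ∩ B = {a} := by
    ext d
    simp only [Finset.mem_inter, Finset.mem_filter, Finset.mem_singleton, hA, hB]
    constructor
    · rintro ⟨⟨-, h1⟩, -, h2⟩
      exact point_unique h12 h1 ha1 h2 ha2
    · rintro rfl; exact ⟨⟨ha, ha1⟩, ha, ha2⟩
  have iABC : (A ∪ B) ∩ C = {b, c} := by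
    ext d
    simp only [Finset.mem_inter, Finset.mem_union, Finset.mem_filter, Finset.mem_singleton,
      Finset.mem_insert, hA, hB, hC]
    constructor
    · rintro ⟨⟨-, h1⟩ | ⟨-, h1⟩, -, h2⟩
      · left; exact point_unique h13 h1 hb1 h2 hb3
      · right; exact point_unique h23 h1 hc2 h2 hc3
    · rintro (rfl | rfl)
      · exact ⟨Or.inl ⟨hb, hb1⟩, hb, hb3⟩
      · exact ⟨Or.inr ⟨hc, hc2⟩, hc, hc3⟩
  have u1 := Finset.card_union_add_card_inter A B
  have u2 := Finset.card_union_add_card_inter (A ∪ B) C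
  rw [iAB, Finset.card_singleton, cA, cB] at u1
  rw [iABC, Finset.card_pair hbc, cC] at u2
  have hsub : (A ∪ B) ∪ C ⊆ S := by
    intro d hd
    simp only [Finset.mem_union, Finset.mem_filter, hA, hB, hC] at hd
    tauto
  rw [e1, Finset.card_sdiff_of_subset hsub, card_S h ho]
  have h5 : ((A ∪ B) ∪ C).card = 3 * m := by omega
  rw [h5]
  rcases m with _ | m
  · -- order zero is impossible
    exfalso
    have : (A ∩ B).card ≤ 1 := by rw [iAB]; simp
    have hm : A = {a} := by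
      apply (Finset.eq_of_subset_of_card_le (Finset.singleton_subset_iff.2
        (Finset.mem_filter.2 ⟨ha, ha1⟩)) ?_).symm
      rw [cA]; simp
    have hbA : b ∈ A := Finset.mem_filter.2 ⟨hb, hb1⟩
    rw [hm, Finset.mem_singleton] at hbA
    exact hab hbA.symm
  · simp only [Nat.add_sub_cancel]
    have : (m + 1) ^ 2 + (m + 1) + 1 = m ^ 2 + 3 * (m + 1) := by ring
    omega

/-- the number of ordered quadrangles of a plane of order `m` -/
def q (m : ℕ) : ℕ := (m ^ 2 + m + 1) * ((m ^ 2 + m) * (m ^ 2 * (m - 1) ^ 2))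

/-- the ordered quadrangles with all points in `S` -/
noncomputable def Quads (L : Type*) {P : Type*} [Membership P L] (S : Finset P) :
    Finset (P × P × P × P) :=
  (S ×ˢ S ×ˢ S ×ˢ S).filter (fun x => Quadrangle L x.1 x.2.1 x.2.2.1 x.2.2.2)

lemma card_Quads (h : IsSubplane S T) (ho : HasOrder S T m) : (Quads L S).card = q m := by
  have e4 : ∀ a ∈ S, ∀ b ∈ S, ∀ c ∈ S,
      (∑ d ∈ S, if Quadrangle L a b c d then 1 else 0) =
        if ¬ Col L a b c then (m - 1) ^ 2 else 0 := by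
    intro a ha b hb c hc
    by_cases hcol : Col L a b c
    · rw [if_neg (by simpa using hcol)]
      apply Finset.sum_eq_zero
      intro d _
      rw [if_neg]
      exact fun hq => hq.1 hcol
    · rw [if_pos hcol, ← Finset.card_filter]
      exact card_off3 h ho ha hb hc hcol
  have e3 : ∀ a ∈ S, ∀ b ∈ S,
      (∑ c ∈ S, if ¬ Col L a b c then (m - 1) ^ 2 else 0) =
        if a ≠ b then m ^ 2 * (m - 1) ^ 2 else 0 := by
    intro a ha b hb
    by_cases hab : a = b
    · rw [if_neg (by simpa using hab)]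
      apply Finset.sum_eq_zero
      intro c _
      rw [if_neg]
      exact fun hcol => (ne_of_not_col hcol).1 hab
    · rw [if_pos hab]
      obtain ⟨l, hl, hal, hbl⟩ := h.exists_line a ha b hb hab
      rw [← Finset.sum_filter, Finset.sum_const, smul_eq_mul]
      congr 1
      rw [← card_off h ho hl]
      congr 1
      ext c
      simp only [Finset.mem_filter, col_iff hab hal hbl]
  have e2 : ∀ a ∈ S, (∑ b ∈ S, if a ≠ b then m ^ 2 * (m - 1) ^ 2 else 0) =
      (m ^ 2 + m) * (m ^ 2 * (m - 1) ^ 2) := by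
    intro a ha
    rw [← Finset.sum_filter, Finset.sum_const, smul_eq_mul]
    congr 1
    have : S.filter (fun b => a ≠ b) = S.erase a := by
      ext b
      simp only [Finset.mem_filter, Finset.mem_erase, ne_comm]
      tauto
    rw [this, Finset.card_erase_of_mem ha, card_S h ho]
    rfl
  unfold Quads q
  rw [Finset.card_filter]
  rw [Finset.sum_product]
  simp_rw [Finset.sum_product]
  rw [Finset.sum_congr rfl (g := fun _ => (m ^ 2 + m) * (m ^ 2 * (m - 1) ^ 2))]
  · rw [Finset.sum_const, smul_eq_mul, card_S h ho]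
  · intro a ha
    rw [← e2 a ha]
    apply Finset.sum_congr rfl
    intro b hb
    rw [← e3 a ha b hb]
    apply Finset.sum_congr rfl
    intro c hc
    exact e4 a ha b hb c hc

lemma univ_subplane [Fintype P] [Fintype L] :
    IsSubplane (Finset.univ : Finset P) (Finset.univ : Finset L) ∧
      HasOrder (Finset.univ : Finset P) (Finset.univ : Finset L) (ProjectivePlane.order P L) := by
  have hpc : ∀ l : L, ((Finset.univ : Finset P).filter (fun a => a ∈ l)).card =
      ProjectivePlane.order P L + 1 := by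
    intro l
    rw [← ProjectivePlane.pointCount_eq (P := P) l, pointCount, Nat.card_eq_fintype_card,
      Fintype.card_subtype]
  have hlc : ∀ a : P, ((Finset.univ : Finset L).filter (fun l => a ∈ l)).card =
      ProjectivePlane.order P L + 1 := by
    intro a
    rw [← ProjectivePlane.lineCount_eq (L := L) a, lineCount, Nat.card_eq_fintype_card,
      Fintype.card_subtype]
  refine ⟨⟨?_, ?_, ?_⟩, fun l _ => hpc l, fun a _ => hlc a⟩
  · intro a _ b _ _
    obtain ⟨l, h1, h2⟩ := exists_line_pair L a b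
    exact ⟨l, Finset.mem_univ _, h1, h2⟩
  · intro l _ k _ hlk
    exact ⟨HasPoints.mkPoint hlk, Finset.mem_univ _, (HasPoints.mkPoint_ax hlk).1,
      (HasPoints.mkPoint_ax hlk).2⟩
  · -- a quadrangle
    have hn := ProjectivePlane.one_lt_order P L
    obtain ⟨a, b, hab⟩ : ∃ a b : P, a ≠ b := by
      obtain ⟨p₁, p₂, p₃, l₁, l₂, l₃, h12, -, -, h22, -⟩ :=
        ProjectivePlane.exists_config (P := P) (L := L)
      exact ⟨p₁, p₂, by rintro rfl; exact h12 h22⟩
    obtain ⟨l1, ha1, hb1⟩ := exists_line_pair L a b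
    -- lines through `a` other than `l1`
    obtain ⟨l2, hl2⟩ : (((Finset.univ : Finset L).filter (fun l => a ∈ l)).erase l1).Nonempty := by
      rw [← Finset.card_pos, Finset.card_erase_of_mem (by simp [ha1]), hlc]
      omega
    rw [Finset.mem_erase, Finset.mem_filter] at hl2
    obtain ⟨h21, -, ha2⟩ := hl2
    obtain ⟨c, hc⟩ : (((Finset.univ : Finset P).filter (fun x => x ∈ l2)).erase a).Nonempty := by
      rw [← Finset.card_pos, Finset.card_erase_of_mem (by simp [ha2]), hpc]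
      omega
    rw [Finset.mem_erase, Finset.mem_filter] at hc
    obtain ⟨hca, -, hc2⟩ := hc
    obtain ⟨l3, hl3⟩ : ((((Finset.univ : Finset L).filter (fun l => a ∈ l)).erase l1).erase
        l2).Nonempty := by
      rw [← Finset.card_pos, Finset.card_erase_of_mem, Finset.card_erase_of_mem (by simp [ha1]),
        hlc]
      · omega
      · rw [Finset.mem_erase, Finset.mem_filter]; exact ⟨h21, Finset.mem_univ _, ha2⟩
    rw [Finset.mem_erase, Finset.mem_erase, Finset.mem_filter] at hl3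
    obtain ⟨h32, h31, -, ha3⟩ := hl3
    -- `l4` is the line `bc`
    have hbc : b ≠ c := by
      rintro rfl
      exact hab (point_unique h21 ha2 hc2 ha1 hb1)
    obtain ⟨l4, hb4, hc4⟩ := exists_line_pair L b c
    have ha4 : a ∉ l4 := by
      intro ha4
      apply h21
      rw [line_unique hab ha1 hb1 ha4 hb4, line_unique (Ne.symm hca) ha2 hc2 ha4 hc4]
    obtain ⟨d, hd⟩ : ((((Finset.univ : Finset P).filter (fun x => x ∈ l3)).erase a).filter
        (fun x => x ∉ l4)).Nonempty := by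
      have h34 : l3 ≠ l4 := by rintro rfl; exact ha4 ha3
      have e : (((Finset.univ : Finset P).filter (fun x => x ∈ l3)).erase a).card =
          ProjectivePlane.order P L := by
        rw [Finset.card_erase_of_mem (by simp [ha3]), hpc]; rfl
      have e2 : ((((Finset.univ : Finset P).filter (fun x => x ∈ l3)).erase a).filter
          (fun x => x ∈ l4)).card ≤ 1 := by
        rw [Finset.card_le_one]
        intro x hx y hy
        simp only [Finset.mem_filter, Finset.mem_erase, Finset.mem_univ, true_and] at hx hy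
        exact point_unique h34 hx.1.2 hy.1.2 hx.2 hy.2
      have e3 := Finset.card_filter_add_card_filter_not
        (s := ((Finset.univ : Finset P).filter (fun x => x ∈ l3)).erase a) (fun x => x ∈ l4)
      rw [← Finset.card_pos]
      omega
    simp only [Finset.mem_filter, Finset.mem_erase, Finset.mem_univ, true_and] at hd
    obtain ⟨⟨hda, hd3⟩, hd4⟩ := hd
    refine ⟨a, Finset.mem_univ _, b, Finset.mem_univ _, c, Finset.mem_univ _, d,
      Finset.mem_univ _, ?_, ?_, ?_, ?_⟩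
    · rw [col_iff hab ha1 hb1]
      intro h; exact hca (point_unique h21 hc2 ha2 h ha1)
    · rw [col_iff hab ha1 hb1]
      intro h; exact hda (point_unique h31 hd3 ha3 h ha1)
    · rw [col_iff (Ne.symm hca) ha2 hc2]
      intro h; exact hda (point_unique h32 hd3 ha3 h ha2)
    · rw [col_iff hbc hb4 hc4]
      exact hd4

/-- the total count of quadrangles -/
lemma q_dvd [Fintype P] [Fintype L] {p : ℕ} (hchar : HasCharacteristic P L p) :
    q p ∣ q (ProjectivePlane.order P L) := by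
  obtain ⟨hu, ho⟩ := univ_subplane (P := P) (L := L)
  rw [← card_Quads hu ho]
  choose! S T hST hord ha hb hc hd hmin using hchar
  have hmemQ : ∀ (S' : Finset P) (y : P × P × P × P), y ∈ Quads L S' ↔
      (y.1 ∈ S' ∧ y.2.1 ∈ S' ∧ y.2.2.1 ∈ S' ∧ y.2.2.2 ∈ S') ∧
        Quadrangle L y.1 y.2.1 y.2.2.1 y.2.2.2 := by
    intro S' y
    unfold Quads
    simp only [Finset.mem_filter, Finset.mem_product]
  have hq : ∀ x ∈ Quads L (Finset.univ : Finset P),
      Quadrangle L x.1 x.2.1 x.2.2.1 x.2.2.2 := fun x hx => ((hmemQ _ x).1 hx).2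
  apply part (Quads L (Finset.univ : Finset P)) (fun x => Quads L (S x.1 x.2.1 x.2.2.1 x.2.2.2))
  · intro x hx
    have hx' := hq x hx
    rw [hmemQ]
    exact ⟨⟨ha _ _ _ _ hx', hb _ _ _ _ hx', hc _ _ _ _ hx', hd _ _ _ _ hx'⟩, hx'⟩
  · intro x hx y hy
    rw [hmemQ] at hy ⊢
    exact ⟨⟨Finset.mem_univ _, Finset.mem_univ _, Finset.mem_univ _, Finset.mem_univ _⟩, hy.2⟩
  · intro x hx
    have hx' := hq x hx
    exact card_Quads (hST _ _ _ _ hx') (hord _ _ _ _ hx')
  · intro x hx y hy z hz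
    have hx' := hq x hx
    rw [hmemQ] at hy hz ⊢
    have hsub := (hmin _ _ _ _ hy.2 (S x.1 x.2.1 x.2.2.1 x.2.2.2) (T x.1 x.2.1 x.2.2.1 x.2.2.2)
      (hST _ _ _ _ hx') hy.1.1 hy.1.2.1 hy.1.2.2.1 hy.1.2.2.2).1
    exact ⟨⟨hsub hz.1.1, hsub hz.1.2.1, hsub hz.1.2.2.1, hsub hz.1.2.2.2⟩, hz.2⟩

/-- `p - 1` divides `n - 1` -/
lemma sub_one_dvd [Fintype P] [Fintype L] {p : ℕ} (hchar : HasCharacteristic P L p) :
    p - 1 ∣ ProjectivePlane.order P L - 1 := by
  obtain ⟨hu, ho⟩ := univ_subplane (P := P) (L := L)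
  have hn := ProjectivePlane.one_lt_order P L
  obtain ⟨A, -, B, -, C, -, E₀, -, h1, h2, h3, h4⟩ := hu.exists_quadrangle
  obtain ⟨hAB, hAC, hBC⟩ := ne_of_not_col h1
  have hAE₀ := (ne_of_not_col h2).2.1
  have hBE₀ := (ne_of_not_col h2).2.2
  obtain ⟨l, hAl, hE₀l⟩ := exists_line_pair L A E₀
  obtain ⟨k, hBk, hCk⟩ := exists_line_pair L B C
  have hBl : B ∉ l := fun h => h2 ⟨l, hAl, h, hE₀l⟩
  have hCl : C ∉ l := fun h => h3 ⟨l, hAl, h, hE₀l⟩
  have hAk : A ∉ k := fun h => h1 ⟨k, h, hBk, hCk⟩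
  have hlk : l ≠ k := by rintro rfl; exact hAk hAl
  set D := HasPoints.mkPoint (P := P) hlk with hD
  have hDl : D ∈ l := (HasPoints.mkPoint_ax hlk).1
  have hDk : D ∈ k := (HasPoints.mkPoint_ax hlk).2
  have hDA : D ≠ A := by intro h; rw [h] at hDk; exact hAk hDk
  -- every point of `l` other than `A`, `D` completes a quadrangle
  have hquad : ∀ E : P, E ∈ l → E ≠ A → E ≠ D → Quadrangle L A B C E := by
    intro E hEl hEA hED
    refine ⟨h1, ?_, ?_, ?_⟩
    · rintro ⟨j, j1, j2, j3⟩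
      rw [line_unique (Ne.symm hEA) j1 j3 hAl hEl] at j2
      exact hBl j2
    · rintro ⟨j, j1, j2, j3⟩
      rw [line_unique (Ne.symm hEA) j1 j3 hAl hEl] at j2
      exact hCl j2
    · rw [col_iff hBC hBk hCk]
      intro h
      exact hED (point_unique hlk hEl hDl h hDk)
  choose! S T hST hord hSa hSb hSc hSd hmin using hchar
  -- the underlying set
  have hcard : ∀ (S' : Finset P) (T' : Finset L) (r : ℕ), IsSubplane S' T' → HasOrder S' T' r →
      A ∈ S' → D ∈ S' → l ∈ T' →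
      (((S'.filter (fun x => x ∈ l)).erase A).erase D).card = r - 1 := by
    intro S' T' r hs hr hA hD' hl
    rw [Finset.card_erase_of_mem, Finset.card_erase_of_mem (Finset.mem_filter.2 ⟨hA, hAl⟩),
      hr.1 l hl]
    · rfl
    · exact Finset.mem_erase.2 ⟨hDA, Finset.mem_filter.2 ⟨hD', hDl⟩⟩
  have hX := hcard _ _ _ hu ho (Finset.mem_univ _) (Finset.mem_univ _) (Finset.mem_univ _)
  rw [← hX]
  have hmem : ∀ (S' : Finset P) (E : P), E ∈ ((S'.filter (fun x => x ∈ l)).erase A).erase D ↔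
      E ≠ D ∧ E ≠ A ∧ E ∈ S' ∧ E ∈ l := by
    intro S' E
    simp only [Finset.mem_erase, Finset.mem_filter]
  apply part _ (fun E => (((S A B C E).filter (fun x => x ∈ l)).erase A).erase D)
  · intro E hE
    rw [hmem] at hE ⊢
    exact ⟨hE.1, hE.2.1, hSd _ _ _ _ (hquad E hE.2.2.2 hE.2.1 hE.1), hE.2.2.2⟩
  · intro E hE y hy
    rw [hmem] at hy ⊢
    exact ⟨hy.1, hy.2.1, Finset.mem_univ _, hy.2.2.2⟩
  · intro E hE
    rw [hmem] at hE
    have hq := hquad E hE.2.2.2 hE.2.1 hE.1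
    have hlT : l ∈ T A B C E :=
      mem_T (hST _ _ _ _ hq) (hSa _ _ _ _ hq) (hSd _ _ _ _ hq) (Ne.symm hE.2.1) hAl hE.2.2.2
    have hkT : k ∈ T A B C E :=
      mem_T (hST _ _ _ _ hq) (hSb _ _ _ _ hq) (hSc _ _ _ _ hq) hBC hBk hCk
    have hDS : D ∈ S A B C E := mem_S (hST _ _ _ _ hq) hlT hkT hlk hDl hDk
    exact hcard _ _ _ (hST _ _ _ _ hq) (hord _ _ _ _ hq) (hSa _ _ _ _ hq) hDS hlT
  · intro E hE y hy z hz
    rw [hmem] at hE hy hz ⊢
    have hq := hquad E hE.2.2.2 hE.2.1 hE.1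
    have hqy := hquad y hy.2.2.2 hy.2.1 hy.1
    have hsub := (hmin _ _ _ _ hqy (S A B C E) (T A B C E) (hST _ _ _ _ hq) (hSa _ _ _ _ hq)
      (hSb _ _ _ _ hq) (hSc _ _ _ _ hq) hy.2.2.1).1
    exact ⟨hz.1, hz.2.1, hsub hz.2.2.1, hz.2.2.2⟩

/-- `p` divides `n` -/
lemma p_dvd [Fintype P] [Fintype L] {p : ℕ} (hchar : HasCharacteristic P L p) :
    p ∣ ProjectivePlane.order P L := by
  obtain ⟨hu, ho⟩ := univ_subplane (P := P) (L := L)
  have hn := ProjectivePlane.one_lt_order P L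
  obtain ⟨A, -, C, -, X₀, -, Y₀, -, h1, h2, h3, h4⟩ := hu.exists_quadrangle
  obtain ⟨hAC, hAX₀, hCX₀⟩ := ne_of_not_col h1
  have hAY₀ := (ne_of_not_col h2).2.1
  obtain ⟨l, hAl, hCl⟩ := exists_line_pair L A C
  obtain ⟨r, hAr, hXr⟩ := exists_line_pair L A X₀
  obtain ⟨s, hAs, hYs⟩ := exists_line_pair L A Y₀
  have hCr : C ∉ r := fun h => h1 ⟨r, hAr, h, hXr⟩
  have hCs : C ∉ s := fun h => h2 ⟨s, hAs, h, hYs⟩
  have hYr : Y₀ ∉ r := fun h => h3 ⟨r, hAr, hXr, h⟩
  have hlr : l ≠ r := by rintro rfl; exact hCr hCl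
  have hls : l ≠ s := by rintro rfl; exact hCs hCl
  have hrs : r ≠ s := by rintro rfl; exact hYr hYs
  -- the point `B` is the intersection of `l` with the line `X₀Y₀`
  have hXY : X₀ ≠ Y₀ := (ne_of_not_col h3).2.2
  obtain ⟨k, hXk, hYk⟩ := exists_line_pair L X₀ Y₀
  have hAk : A ∉ k := fun h => h3 ⟨k, h, hXk, hYk⟩
  have hCk : C ∉ k := fun h => h4 ⟨k, h, hXk, hYk⟩
  have hlk : l ≠ k := by rintro rfl; exact hAk hAl
  set B := HasPoints.mkPoint (P := P) hlk with hB
  have hBl : B ∈ l := (HasPoints.mkPoint_ax hlk).1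
  have hBk : B ∈ k := (HasPoints.mkPoint_ax hlk).2
  have hBA : B ≠ A := by intro h; rw [h] at hBk; exact hAk hBk
  have hBC : B ≠ C := by intro h; rw [h] at hBk; exact hCk hBk
  have hBr : B ∉ r := fun h => hBA (point_unique hlr hBl hAl h hAr)
  have hBs : B ∉ s := fun h => hBA (point_unique hls hBl hAl h hAs)
  -- the perspectivity `x ↦ xB ∩ s`
  have hpersp : ∀ x : P, x ∈ r → x ≠ A → ∃ (j : L) (y : P), x ∈ j ∧ B ∈ j ∧ y ∈ j ∧ y ∈ s ∧
      j ≠ s ∧ j ≠ l := by
    intro x hx hxA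
    obtain ⟨j, hxj, hBj⟩ := exists_line_pair L x B
    have hjs : j ≠ s := by rintro rfl; exact hBs hBj
    have hjl : j ≠ l := by
      rintro rfl
      exact hxA (point_unique hlr hxj hAl hx hAr)
    exact ⟨j, HasPoints.mkPoint hjs, hxj, hBj, (HasPoints.mkPoint_ax hjs).1,
      (HasPoints.mkPoint_ax hjs).2, hjs, hjl⟩
  have hneL : Nonempty L := ⟨l⟩
  have hneP : Nonempty P := ⟨A⟩
  choose! j y hxj hBj hyj hys hjs hjl using hpersp
  have hyA : ∀ x, x ∈ r → x ≠ A → y x ≠ A := by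
    intro x hx hxA h
    have hAj : A ∈ j x := by rw [← h]; exact hyj x hx hxA
    exact hjl x hx hxA (line_unique hBA (hBj x hx hxA) hAj hBl hAl)
  have hyx : ∀ x, x ∈ r → x ≠ A → x ≠ y x := by
    intro x hx hxA h
    have : x ∈ s := by rw [h]; exact hys x hx hxA
    exact hxA (point_unique hrs hx hAr this hAs)
  have hquad : ∀ x : P, x ∈ r → x ≠ A → Quadrangle L A x (y x) C := by
    intro x hx hxA
    refine ⟨?_, ?_, ?_, ?_⟩
    · rw [col_iff (Ne.symm hxA) hAr hx]
      intro h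
      exact hyA x hx hxA (point_unique hrs h hAr (hys x hx hxA) hAs)
    · rw [col_iff (Ne.symm hxA) hAr hx]
      exact hCr
    · rw [col_iff (Ne.symm (hyA x hx hxA)) hAs (hys x hx hxA)]
      exact hCs
    · rw [col_iff (hyx x hx hxA) (hxj x hx hxA) (hyj x hx hxA)]
      intro h
      exact hjl x hx hxA (line_unique hBC (hBj x hx hxA) h hBl hCl)
  choose! S T hST hord hSa hSb hSc hSd hmin using hchar
  have hcard : ∀ (S' : Finset P) (T' : Finset L) (m : ℕ), HasOrder S' T' m →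
      A ∈ S' → r ∈ T' → ((S'.filter (fun x => x ∈ r)).erase A).card = m := by
    intro S' T' m hr hA hrT
    rw [Finset.card_erase_of_mem (Finset.mem_filter.2 ⟨hA, hAr⟩), hr.1 r hrT]
    rfl
  have hX := hcard _ _ _ ho (Finset.mem_univ _) (Finset.mem_univ _)
  rw [← hX]
  have hmem : ∀ (S' : Finset P) (E : P), E ∈ ((S'.filter (fun x => x ∈ r)).erase A) ↔
      E ≠ A ∧ E ∈ S' ∧ E ∈ r := by
    intro S' E
    simp only [Finset.mem_erase, Finset.mem_filter]
  apply part _ (fun x => ((S A x (y x) C).filter (fun x => x ∈ r)).erase A)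
  · intro x hx
    rw [hmem] at hx ⊢
    exact ⟨hx.1, hSb _ _ _ _ (hquad x hx.2.2 hx.1), hx.2.2⟩
  · intro x hx z hz
    rw [hmem] at hz ⊢
    exact ⟨hz.1, Finset.mem_univ _, hz.2.2⟩
  · intro x hx
    rw [hmem] at hx
    have hq := hquad x hx.2.2 hx.1
    have hrT : r ∈ T A x (y x) C :=
      mem_T (hST _ _ _ _ hq) (hSa _ _ _ _ hq) (hSb _ _ _ _ hq) (Ne.symm hx.1) hAr hx.2.2
    exact hcard _ _ _ (hord _ _ _ _ hq) (hSa _ _ _ _ hq) hrT
  · intro x hx x' hx' z hz
    rw [hmem] at hx hx' hz ⊢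
    have hq := hquad x hx.2.2 hx.1
    have hq' := hquad x' hx'.2.2 hx'.1
    have hsub := hST _ _ _ _ hq
    have hlT : l ∈ T A x (y x) C :=
      mem_T hsub (hSa _ _ _ _ hq) (hSd _ _ _ _ hq) hAC hAl hCl
    have hsT : s ∈ T A x (y x) C :=
      mem_T hsub (hSa _ _ _ _ hq) (hSc _ _ _ _ hq) (Ne.symm (hyA x hx.2.2 hx.1)) hAs
        (hys x hx.2.2 hx.1)
    have hjT : j x ∈ T A x (y x) C :=
      mem_T hsub (hSb _ _ _ _ hq) (hSc _ _ _ _ hq) (hyx x hx.2.2 hx.1)
        (hxj x hx.2.2 hx.1) (hyj x hx.2.2 hx.1)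
    have hBS : B ∈ S A x (y x) C :=
      mem_S hsub hlT hjT (Ne.symm (hjl x hx.2.2 hx.1)) hBl (hBj x hx.2.2 hx.1)
    have hx'B : x' ≠ B := by rintro rfl; exact hBr hx'.2.2
    have hj'T : j x' ∈ T A x (y x) C :=
      mem_T hsub hx'.2.1 hBS hx'B (hxj x' hx'.2.2 hx'.1) (hBj x' hx'.2.2 hx'.1)
    have hy'S : y x' ∈ S A x (y x) C :=
      mem_S hsub hj'T hsT (hjs x' hx'.2.2 hx'.1) (hyj x' hx'.2.2 hx'.1) (hys x' hx'.2.2 hx'.1)
    have hle := (hmin _ _ _ _ hq' (S A x (y x) C) (T A x (y x) C) hsub (hSa _ _ _ _ hq)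
      hx'.2.1 hy'S (hSd _ _ _ _ hq)).1
    exact ⟨hz.1, hle hz.2.1, hz.2.2⟩

/-- the number of ordered quadrangles through a fixed point of a plane of order `m` -/
def q1 (m : ℕ) : ℕ := (m ^ 2 + m) * (m ^ 2 * (m - 1) ^ 2)

/-- the ordered quadrangles with first point `a` and all points in `S` -/
noncomputable def QuadsAt (L : Type*) {P : Type*} [Membership P L] (a : P) (S : Finset P) :
    Finset (P × P × P) :=
  (S ×ˢ S ×ˢ S).filter (fun x => Quadrangle L a x.1 x.2.1 x.2.2)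

lemma card_QuadsAt (h : IsSubplane S T) (ho : HasOrder S T m) {a : P} (ha : a ∈ S) :
    (QuadsAt L a S).card = q1 m := by
  have e4 : ∀ b ∈ S, ∀ c ∈ S,
      (∑ d ∈ S, if Quadrangle L a b c d then 1 else 0) =
        if ¬ Col L a b c then (m - 1) ^ 2 else 0 := by
    intro b hb c hc
    by_cases hcol : Col L a b c
    · rw [if_neg (by simpa using hcol)]
      apply Finset.sum_eq_zero
      intro d _
      rw [if_neg]
      exact fun hq => hq.1 hcol
    · rw [if_pos hcol, ← Finset.card_filter]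
      exact card_off3 h ho ha hb hc hcol
  have e3 : ∀ b ∈ S,
      (∑ c ∈ S, if ¬ Col L a b c then (m - 1) ^ 2 else 0) =
        if a ≠ b then m ^ 2 * (m - 1) ^ 2 else 0 := by
    intro b hb
    by_cases hab : a = b
    · rw [if_neg (by simpa using hab)]
      apply Finset.sum_eq_zero
      intro c _
      rw [if_neg]
      exact fun hcol => (ne_of_not_col hcol).1 hab
    · rw [if_pos hab]
      obtain ⟨l, hl, hal, hbl⟩ := h.exists_line a ha b hb hab
      rw [← Finset.sum_filter, Finset.sum_const, smul_eq_mul]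
      congr 1
      rw [← card_off h ho hl]
      congr 1
      ext c
      simp only [Finset.mem_filter, col_iff hab hal hbl]
  have e2 : (∑ b ∈ S, if a ≠ b then m ^ 2 * (m - 1) ^ 2 else 0) =
      (m ^ 2 + m) * (m ^ 2 * (m - 1) ^ 2) := by
    rw [← Finset.sum_filter, Finset.sum_const, smul_eq_mul]
    congr 1
    have : S.filter (fun b => a ≠ b) = S.erase a := by
      ext b
      simp only [Finset.mem_filter, Finset.mem_erase, ne_comm]
      tauto
    rw [this, Finset.card_erase_of_mem ha, card_S h ho]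
    rfl
  unfold QuadsAt q1
  rw [Finset.card_filter]
  rw [Finset.sum_product]
  simp_rw [Finset.sum_product]
  rw [← e2]
  apply Finset.sum_congr rfl
  intro b hb
  rw [← e3 b hb]
  apply Finset.sum_congr rfl
  intro c hc
  exact e4 b hb c hc

/-- the count of quadrangles through a point -/
lemma q1_dvd [Fintype P] [Fintype L] {p : ℕ} (hchar : HasCharacteristic P L p) :
    q1 p ∣ q1 (ProjectivePlane.order P L) := by
  obtain ⟨hu, ho⟩ := univ_subplane (P := P) (L := L)
  obtain ⟨A, hA, -⟩ := hu.exists_quadrangle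
  rw [← card_QuadsAt hu ho hA]
  choose! S T hST hord ha hb hc hd hmin using hchar
  have hmemQ : ∀ (S' : Finset P) (y : P × P × P), y ∈ QuadsAt L A S' ↔
      (y.1 ∈ S' ∧ y.2.1 ∈ S' ∧ y.2.2 ∈ S') ∧ Quadrangle L A y.1 y.2.1 y.2.2 := by
    intro S' y
    unfold QuadsAt
    simp only [Finset.mem_filter, Finset.mem_product]
  have hq : ∀ x ∈ QuadsAt L A (Finset.univ : Finset P),
      Quadrangle L A x.1 x.2.1 x.2.2 := fun x hx => ((hmemQ _ x).1 hx).2
  apply part (QuadsAt L A (Finset.univ : Finset P)) (fun x => QuadsAt L A (S A x.1 x.2.1 x.2.2))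
  · intro x hx
    have hx' := hq x hx
    rw [hmemQ]
    exact ⟨⟨hb _ _ _ _ hx', hc _ _ _ _ hx', hd _ _ _ _ hx'⟩, hx'⟩
  · intro x hx y hy
    rw [hmemQ] at hy ⊢
    exact ⟨⟨Finset.mem_univ _, Finset.mem_univ _, Finset.mem_univ _⟩, hy.2⟩
  · intro x hx
    have hx' := hq x hx
    exact card_QuadsAt (hST _ _ _ _ hx') (hord _ _ _ _ hx') (ha _ _ _ _ hx')
  · intro x hx y hy z hz
    have hx' := hq x hx
    rw [hmemQ] at hy hz ⊢
    have hsub := (hmin _ _ _ _ hy.2 (S A x.1 x.2.1 x.2.2) (T A x.1 x.2.1 x.2.2)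
      (hST _ _ _ _ hx') (ha _ _ _ _ hx') hy.1.1 hy.1.2.1 hy.1.2.2).1
    exact ⟨⟨hsub hz.1.1, hsub hz.1.2.1, hsub hz.1.2.2⟩, hz.2⟩

end plane

/-- The arithmetic form of the two congruences. -/
lemma form {p n : ℕ} (hp : 2 ≤ p) (hn : 0 < n) (h1 : p ∣ n) (h2 : p - 1 ∣ n - 1) :
    ∃ t : ℕ, n = p * (1 + t * (p - 1)) := by
  obtain ⟨u, rfl⟩ := h1
  have hu : 0 < u := Nat.pos_of_mul_pos_left hn |> fun _ => by
    rcases Nat.eq_zero_or_pos u with h | h
    · subst h; simp at hn
    · exact h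
  have e : p * u - 1 = (p - 1) * u + (u - 1) := by
    obtain ⟨a, rfl⟩ : ∃ a, p = a + 1 := ⟨p - 1, by omega⟩
    obtain ⟨b, rfl⟩ : ∃ b, u = b + 1 := ⟨u - 1, by omega⟩
    simp only [Nat.add_sub_cancel]
    have : (a + 1) * (b + 1) = a * (b + 1) + b + 1 := by ring
    omega
  rw [e] at h2
  obtain ⟨t, ht⟩ := (Nat.dvd_add_right (Dvd.intro u rfl)).1 h2
  refine ⟨t, ?_⟩
  congr 1
  rw [mul_comm t]
  omega

/-- The numbers `p (1 + t (p - 1))` with `t < k` which pass the two divisibility tests are powers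
of `p`. -/
def check (p k : ℕ) : Bool :=
  (List.range k).all fun t =>
    let n := p * (1 + t * (p - 1))
    (q1 n % q1 p != 0) || (q n % q p != 0) || (n == p) || (n == p ^ 2) || (n == p ^ 3)

lemma small {p k n : ℕ} (hc : check p k = true) (hp : 2 ≤ p) (hn : 0 < n) (h1 : p ∣ n)
    (h2 : p - 1 ∣ n - 1) (h3 : q1 p ∣ q1 n) (h4 : q p ∣ q n) (hk : n < p * (1 + k * (p - 1))) :
    n = p ∨ n = p ^ 2 ∨ n = p ^ 3 := by
  obtain ⟨t, rfl⟩ := form hp hn h1 h2
  have ht : t < k := by
    have h5 := Nat.lt_of_mul_lt_mul_left hk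
    have h6 : t * (p - 1) < k * (p - 1) := by omega
    exact Nat.lt_of_mul_lt_mul_right h6
  unfold check at hc
  rw [List.all_eq_true] at hc
  have := hc t (List.mem_range.2 ht)
  simp only [Bool.or_eq_true, bne_iff_ne, beq_iff_eq, ne_eq] at this
  rcases this with ((((h | h) | h) | h) | h)
  · exact absurd (Nat.mod_eq_zero_of_dvd h3) h
  · exact absurd (Nat.mod_eq_zero_of_dvd h4) h
  · exact Or.inl h
  · exact Or.inr (Or.inl h)
  · exact Or.inr (Or.inr h)

/-- Restrictions on the order `n` of a finite projective plane of characteristic `p`. -/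
theorem result {P L : Type} [Membership P L] [ProjectivePlane P L] [Fintype P] [Fintype L]
    (p : ℕ) (hp : p.Prime) (hchar : HasCharacteristic P L p) :
    -- congruences: `n` is congruent to `p` modulo `p (p - 1)`
    (p ∣ ProjectivePlane.order P L ∧ p - 1 ∣ ProjectivePlane.order P L - 1) ∧
    -- `n = p`, `n = p ^ 2` or `n ≥ 2 p ^ 2 - p`
    (ProjectivePlane.order P L = p ∨ ProjectivePlane.order P L = p ^ 2 ∨
      2 * p ^ 2 - p ≤ ProjectivePlane.order P L) ∧
    -- divisibilities from counting quadrangles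
    (p ^ 3 * (p + 1) * (p - 1) ^ 2 ∣ ProjectivePlane.order P L ^ 3 *
      (ProjectivePlane.order P L + 1) * (ProjectivePlane.order P L - 1) ^ 2) ∧
    (p ^ 3 * (p + 1) * (p - 1) ^ 2 * (p ^ 2 + p + 1) ∣ ProjectivePlane.order P L ^ 3 *
      (ProjectivePlane.order P L + 1) * (ProjectivePlane.order P L - 1) ^ 2 *
      (ProjectivePlane.order P L ^ 2 + ProjectivePlane.order P L + 1)) ∧
    -- small orders are powers of `p`
    ((p = 3 ∧ ProjectivePlane.order P L < 39) ∨ (p = 5 ∧ ProjectivePlane.order P L < 185) ∨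
      (p = 7 ∧ ProjectivePlane.order P L < 133) ∨ (p = 11 ∧ ProjectivePlane.order P L < 2101) ∨
      (p = 13 ∧ ProjectivePlane.order P L < 8905) ∨
      (p = 17 ∧ ProjectivePlane.order P L < 26401) ∨
      (p = 19 ∧ ProjectivePlane.order P L < 41401) ∨
      (p = 23 ∧ ProjectivePlane.order P L < 39997) →
      ProjectivePlane.order P L = p ∨ ProjectivePlane.order P L = p ^ 2 ∨
        ProjectivePlane.order P L = p ^ 3) := by
  have h1 := p_dvd hchar
  have h2 := sub_one_dvd hchar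
  have h3 := q1_dvd hchar
  have h4 := q_dvd hchar
  have hn := ProjectivePlane.one_lt_order P L
  have hp2 := hp.two_le
  set n := ProjectivePlane.order P L with hnn
  have hq1 : ∀ x : ℕ, q1 x = x ^ 3 * (x + 1) * (x - 1) ^ 2 := by
    intro x; unfold q1; ring
  have hq : ∀ x : ℕ, q x = x ^ 3 * (x + 1) * (x - 1) ^ 2 * (x ^ 2 + x + 1) := by
    intro x; unfold q; ring
  refine ⟨⟨h1, h2⟩, ?_, ?_, ?_, ?_⟩
  · obtain ⟨t, ht⟩ := form hp2 (by omega) h1 h2
    rcases t with _ | _ | t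
    · left; simpa using ht
    · right; left
      rw [ht]
      have : 1 + (0 + 1) * (p - 1) = p := by omega
      rw [this]; ring
    · right; right
      have h5 : 2 * p ^ 2 - p = p * (1 + 2 * (p - 1)) := by
        obtain ⟨a, rfl⟩ : ∃ a, p = a + 1 := ⟨p - 1, by omega⟩
        simp only [Nat.add_sub_cancel]
        have : 2 * (a + 1) ^ 2 = (a + 1) * (1 + 2 * a) + (a + 1) := by ring
        omega
      rw [h5, ht]
      apply Nat.mul_le_mul_left
      have : 2 * (p - 1) ≤ (t + 1 + 1) * (p - 1) := Nat.mul_le_mul_right _ (by omega)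
      omega
  · rw [← hq1, ← hq1]; exact h3
  · rw [← hq, ← hq]; exact h4
  · have hpos : 0 < n := by omega
    rintro (⟨rfl, h⟩ | ⟨rfl, h⟩ | ⟨rfl, h⟩ | ⟨rfl, h⟩ | ⟨rfl, h⟩ | ⟨rfl, h⟩ | ⟨rfl, h⟩ | ⟨rfl, h⟩)
    · exact small (k := 6) (by decide +kernel) (by norm_num) hpos h1 h2 h3 h4 (by omega)
    · exact small (k := 9) (by decide +kernel) (by norm_num) hpos h1 h2 h3 h4 (by omega)
    · exact small (k := 3) (by decide +kernel) (by norm_num) hpos h1 h2 h3 h4 (by omega)
    · exact small (k := 19) (by decide +kernel) (by norm_num) hpos h1 h2 h3 h4 (by omega)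
    · exact small (k := 57) (by decide +kernel) (by norm_num) hpos h1 h2 h3 h4 (by omega)
    · exact small (k := 97) (by decide +kernel) (by norm_num) hpos h1 h2 h3 h4 (by omega)
    · exact small (k := 121) (by decide +kernel) (by norm_num) hpos h1 h2 h3 h4 (by omega)
    · exact small (k := 79) (by decide +kernel) (by norm_num) hpos h1 h2 h3 h4 (by omega)

end Pool.Agent.Results.MP_994e17_co.OrderCongruences
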